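import Pool.Agent.U514.TG.Stm

set_option autoImplicit false

/-!
Package CARD of project TG (MP_e72dc0_lc): number of tiles.
-/

namespace Pool.Agent.U324.TG.CARD

open Finset
open Pool.Agent.U514.TG

lemma col_det {m W a b : ℕ} (h1 : a / W / (m * m) = b / W / (m * m))
    (h2 : a / W / m % m = b / W / m % m) (h3 : a / W % m = b / W % m) (h4 : a % W = b % W) :
    a = b := by
  have key : ∀ x : ℕ, x = ((x / (m * m)) * m + x / m % m) * m + x % m := by
    intro x
    have e1 : x / m = x / m / m * m + x / m % m := by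
      have := Nat.div_add_mod (x / m) m
      rw [mul_comm] at this
      exact this.symm
    have e2 : x = x / m * m + x % m := by
      have := Nat.div_add_mod x m
      rw [mul_comm] at this
      exact this.symm
    rw [← Nat.div_div_eq_div_mul, ← e1, ← e2]
  have h5 : a / W = b / W := by
    rw [key (a / W), key (b / W), h1, h2, h3]
  have h6 := Nat.div_add_mod a W
  have h7 := Nat.div_add_mod b W
  rw [← h6, ← h7, h4, h5]

theorem t_CARD : S_CARD := by
  intro F V _ p hp
  have hm := hp.m_pos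
  have hsub : p.region ⊆ (univ.biUnion fun τ : Fin p.nT =>
      ((range p.width).filter fun c => p.InStrip τ c) ×ˢ Ico (p.start τ) p.top) ∪
        range p.width ×ˢ Ico p.top (p.top + (p.nX * p.m) ^ 2) := by
    unfold Par.region
    apply Finset.union_subset_union_left
    intro q hq
    rw [mem_filter, mem_product, mem_range, mem_range] at hq
    obtain ⟨⟨h1, h2⟩, τ, h3, h4⟩ := hq
    rw [mem_biUnion]
    refine ⟨τ, mem_univ _, ?_⟩
    rw [mem_product, mem_filter, mem_range, mem_Ico]
    exact ⟨⟨h1, h3⟩, h4, h2⟩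
  have hcols : ∀ τ : Fin p.nT, ((range p.width).filter fun c => p.InStrip τ c).card ≤
      3 * p.m ^ 2 := by
    intro τ
    have h1 : ((range p.width).filter fun c => p.InStrip τ c).card ≤
        (range (p.m / p.t τ) ×ˢ (range (p.m / p.t τ) ×ˢ range (3 * p.t τ ^ 2))).card := by
      apply Finset.card_le_card_of_injOn (fun c => (p.Iof c, p.Jof c, p.cOf c))
      · intro c hc
        rw [mem_coe, mem_filter] at hc
        obtain ⟨-, -, h2, h3, h4⟩ := hc
        rw [mem_coe, mem_product, mem_product, mem_range, mem_range, mem_range]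
        exact ⟨h2, h3, h4⟩
      · intro a ha b hb hab
        rw [mem_coe, mem_filter] at ha hb
        obtain ⟨-, h2, -⟩ := ha
        obtain ⟨-, h2', -⟩ := hb
        simp only [Prod.mk.injEq] at hab
        obtain ⟨h3, h4, h5⟩ := hab
        exact col_det (h2.trans h2'.symm) h3 h4 h5
    refine h1.trans (le_of_eq ?_)
    rw [card_product, card_product, card_range, card_range]
    obtain ⟨s, hs⟩ := hp.t_dvd τ
    have ht := hp.t_pos τ
    have e1 : p.m / p.t τ = s := by rw [hs]; exact Nat.mul_div_cancel_left s ht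
    rw [e1]
    have e2 : p.m ^ 2 = (p.t τ * s) ^ 2 := by rw [← hs]
    rw [e2]
    ring
  have hle : ∀ τ : Fin p.nT, p.t τ ≤ p.m := fun τ => Nat.le_of_dvd hm (hp.t_dvd τ)
  have hrows : ∀ τ : Fin p.nT, (Ico (p.start τ) p.top).card = 3 * p.t τ * p.N := by
    intro τ
    rw [Nat.card_Ico]
    unfold Par.start Par.top
    obtain ⟨r, hr⟩ := Nat.exists_eq_add_of_le (hle τ)
    have e1 : p.m - p.t τ = r := by omega
    rw [e1, hr]
    have e2 : 3 * (p.t τ + r) * p.N = 3 * p.t τ * p.N + 3 * r * p.N := by ring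
    omega
  have h1 := (card_le_card hsub).trans (card_union_le _ _)
  refine h1.trans (Nat.add_le_add ?_ ?_)
  · refine card_biUnion_le.trans ?_
    rw [mul_sum]
    refine sum_le_sum fun τ _ => ?_
    rw [card_product, hrows]
    calc _ ≤ 3 * p.m ^ 2 * (3 * p.t τ * p.N) := Nat.mul_le_mul_right _ (hcols τ)
      _ = 9 * p.m ^ 2 * p.N * p.t τ := by ring
  · rw [card_product, card_range, Nat.card_Ico, Nat.add_sub_cancel_left]
    unfold Par.width Par.W
    have h2 : 3 * p.m ^ 2 + 1 ≤ 4 * p.m ^ 2 := by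
      have : 1 ≤ p.m ^ 2 := Nat.one_le_pow _ _ hm
      omega
    calc p.nT * (p.m * p.m) * (3 * p.m ^ 2 + 1) * (p.nX * p.m) ^ 2
        ≤ p.nT * (p.m * p.m) * (4 * p.m ^ 2) * (p.nX * p.m) ^ 2 := by gcongr
      _ = 4 * p.nT * p.nX ^ 2 * p.m ^ 6 := by ring

end Pool.Agent.U324.TG.CARD
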