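import Mathlib
import Pool.Agent.Helper770.CrossingDefs

set_option autoImplicit false

/-!
Project TG (MP_e72dc0_lc), package PLAN: a graph whose vertices are different points of `ℤ ^ 2` and
whose edges join neighbouring points has a drawing without crossings.
-/

namespace Pool.Agent.U324.TG.PLAN

open Pool.Agent.Helper770.Crossing

section

variable {V : Type} (pos : V → Fin 2 → ℤ)

/-- the point of a vertex -/
noncomputable def P (v : V) : ℂ := ⟨(pos v 0 : ℝ), (pos v 1 : ℝ)⟩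

/-- first end -/
noncomputable def fs (e : Sym2 V) : V := (Quot.out e).1

/-- second end -/
noncomputable def sn (e : Sym2 V) : V := (Quot.out e).2

lemma mk_out (e : Sym2 V) : s(fs e, sn e) = e := Quot.out_eq e

/-- the arc -/
noncomputable def ar (e : Sym2 V) (t : ℝ) : ℂ := (1 - (t : ℂ)) * P pos (fs e) + t * P pos (sn e)

lemma ar_re (e : Sym2 V) (t : ℝ) :
    (ar pos e t).re = (1 - t) * (pos (fs e) 0 : ℝ) + t * (pos (sn e) 0 : ℝ) := by
  simp [ar, P]

lemma ar_im (e : Sym2 V) (t : ℝ) :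
    (ar pos e t).im = (1 - t) * (pos (fs e) 1 : ℝ) + t * (pos (sn e) 1 : ℝ) := by
  simp [ar, P]

variable {pos}

lemma P_inj (hpos : Function.Injective pos) : Function.Injective (P pos) := by
  intro u v h
  apply hpos
  have h1 := congrArg Complex.re h
  have h2 := congrArg Complex.im h
  simp only [P] at h1 h2
  funext i
  fin_cases i
  · exact_mod_cast h1
  · exact_mod_cast h2

/-- horizontal -/
def Hz (pos : V → Fin 2 → ℤ) (e : Sym2 V) (n : ℤ) : Prop :=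
  pos (fs e) 1 = pos (sn e) 1 ∧
    ((pos (fs e) 0 = n ∧ pos (sn e) 0 = n + 1) ∨ (pos (fs e) 0 = n + 1 ∧ pos (sn e) 0 = n))

/-- vertical -/
def Vt (pos : V → Fin 2 → ℤ) (e : Sym2 V) (n : ℤ) : Prop :=
  pos (fs e) 0 = pos (sn e) 0 ∧
    ((pos (fs e) 1 = n ∧ pos (sn e) 1 = n + 1) ∨ (pos (fs e) 1 = n + 1 ∧ pos (sn e) 1 = n))

lemma cases_edge {e : Sym2 V} (h : ∑ i, (pos (fs e) i - pos (sn e) i).natAbs = 1) :
    (∃ n, Hz pos e n) ∨ ∃ n, Vt pos e n := by
  rw [Fin.sum_univ_two] at h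
  by_cases h1 : pos (fs e) 1 = pos (sn e) 1
  · left
    have h2 : (pos (fs e) 0 - pos (sn e) 0).natAbs = 1 := by omega
    by_cases h3 : pos (fs e) 0 < pos (sn e) 0
    · exact ⟨pos (fs e) 0, h1, Or.inl ⟨rfl, by omega⟩⟩
    · exact ⟨pos (sn e) 0, h1, Or.inr ⟨by omega, rfl⟩⟩
  · right
    have h0 : pos (fs e) 0 = pos (sn e) 0 := by omega
    by_cases h3 : pos (fs e) 1 < pos (sn e) 1
    · exact ⟨pos (fs e) 1, h0, Or.inl ⟨rfl, by omega⟩⟩
    · exact ⟨pos (sn e) 1, h0, Or.inr ⟨by omega, rfl⟩⟩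

lemma Hz.pt {e : Sym2 V} {n : ℤ} (h : Hz pos e n) {t : ℝ} (ht : t ∈ Set.Ioo (0:ℝ) 1) :
    (ar pos e t).im = pos (fs e) 1 ∧ (n : ℝ) < (ar pos e t).re ∧ (ar pos e t).re < n + 1 := by
  obtain ⟨h1, h2⟩ := h
  obtain ⟨t0, t1⟩ := ht
  rw [ar_re, ar_im, ← h1]
  refine ⟨by ring, ?_⟩
  rcases h2 with ⟨h3, h4⟩ | ⟨h3, h4⟩
  · rw [h3, h4]; push_cast
    constructor <;> nlinarith
  · rw [h3, h4]; push_cast
    constructor <;> nlinarith

lemma Vt.pt {e : Sym2 V} {n : ℤ} (h : Vt pos e n) {t : ℝ} (ht : t ∈ Set.Ioo (0:ℝ) 1) :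
    (ar pos e t).re = pos (fs e) 0 ∧ (n : ℝ) < (ar pos e t).im ∧ (ar pos e t).im < n + 1 := by
  obtain ⟨h1, h2⟩ := h
  obtain ⟨t0, t1⟩ := ht
  rw [ar_re, ar_im, ← h1]
  refine ⟨by ring, ?_⟩
  rcases h2 with ⟨h3, h4⟩ | ⟨h3, h4⟩
  · rw [h3, h4]; push_cast
    constructor <;> nlinarith
  · rw [h3, h4]; push_cast
    constructor <;> nlinarith

lemma no_int {n m : ℤ} {x : ℝ} (h1 : (n:ℝ) < x) (h2 : x < n + 1) (h : x = m) : False := by
  rw [h] at h1 h2
  have h3 : n < m := by exact_mod_cast h1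
  have h4 : m < n + 1 := by exact_mod_cast h2
  omega

lemma same_int {n m : ℤ} {x : ℝ} (h1 : (n:ℝ) < x) (h2 : x < n + 1) (h3 : (m:ℝ) < x)
    (h4 : x < m + 1) : n = m := by
  have h5 : (n:ℝ) < m + 1 := h1.trans h4
  have h6 : (m:ℝ) < n + 1 := h3.trans h2
  have h7 : n < m + 1 := by exact_mod_cast h5
  have h8 : m < n + 1 := by exact_mod_cast h6
  omega

lemma eq_of_ends (hpos : Function.Injective pos) {e f : Sym2 V}
    (h : (pos (fs e) = pos (fs f) ∧ pos (sn e) = pos (sn f)) ∨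
      (pos (fs e) = pos (sn f) ∧ pos (sn e) = pos (fs f))) : e = f := by
  rw [← mk_out e, ← mk_out f]
  rcases h with ⟨h1, h2⟩ | ⟨h1, h2⟩
  · rw [hpos h1, hpos h2]
  · rw [hpos h1, hpos h2, Sym2.eq_swap]

lemma ext2 {a b : Fin 2 → ℤ} (h0 : a 0 = b 0) (h1 : a 1 = b 1) : a = b := by
  funext i
  fin_cases i
  · exact h0
  · exact h1

lemma eq_of_point (hpos : Function.Injective pos) {e f : Sym2 V}
    (he : ∑ i, (pos (fs e) i - pos (sn e) i).natAbs = 1)
    (hf : ∑ i, (pos (fs f) i - pos (sn f) i).natAbs = 1) {t t' : ℝ}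
    (ht : t ∈ Set.Ioo (0:ℝ) 1) (ht' : t' ∈ Set.Ioo (0:ℝ) 1) (h : ar pos e t = ar pos f t') :
    e = f := by
  rcases cases_edge he with ⟨n, hn⟩ | ⟨n, hn⟩
  · obtain ⟨a1, a2, a3⟩ := hn.pt ht
    rcases cases_edge hf with ⟨m, hm⟩ | ⟨m, hm⟩
    · obtain ⟨b1, b2, b3⟩ := hm.pt ht'
      rw [h] at a1 a2 a3
      have hnm := same_int a2 a3 b2 b3
      subst hnm
      rw [b1] at a1
      have hy : pos (fs f) 1 = pos (fs e) 1 := by exact_mod_cast a1
      obtain ⟨c1, c2⟩ := hn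
      obtain ⟨d1, d2⟩ := hm
      apply eq_of_ends hpos
      rcases c2 with ⟨c2, c3⟩ | ⟨c2, c3⟩ <;> rcases d2 with ⟨d2, d3⟩ | ⟨d2, d3⟩
      · left; exact ⟨ext2 (by omega) (by omega), ext2 (by omega) (by omega)⟩
      · right; exact ⟨ext2 (by omega) (by omega), ext2 (by omega) (by omega)⟩
      · right; exact ⟨ext2 (by omega) (by omega), ext2 (by omega) (by omega)⟩
      · left; exact ⟨ext2 (by omega) (by omega), ext2 (by omega) (by omega)⟩
    · obtain ⟨b1, -, -⟩ := hm.pt ht'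
      rw [h] at a2 a3
      exact (no_int a2 a3 b1).elim
  · obtain ⟨a1, a2, a3⟩ := hn.pt ht
    rcases cases_edge hf with ⟨m, hm⟩ | ⟨m, hm⟩
    · obtain ⟨b1, -, -⟩ := hm.pt ht'
      rw [h] at a2 a3
      exact (no_int a2 a3 b1).elim
    · obtain ⟨b1, b2, b3⟩ := hm.pt ht'
      rw [h] at a1 a2 a3
      have hnm := same_int a2 a3 b2 b3
      subst hnm
      rw [b1] at a1
      have hy : pos (fs f) 0 = pos (fs e) 0 := by exact_mod_cast a1
      obtain ⟨c1, c2⟩ := hn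
      obtain ⟨d1, d2⟩ := hm
      apply eq_of_ends hpos
      rcases c2 with ⟨c2, c3⟩ | ⟨c2, c3⟩ <;> rcases d2 with ⟨d2, d3⟩ | ⟨d2, d3⟩
      · left; exact ⟨ext2 (by omega) (by omega), ext2 (by omega) (by omega)⟩
      · right; exact ⟨ext2 (by omega) (by omega), ext2 (by omega) (by omega)⟩
      · right; exact ⟨ext2 (by omega) (by omega), ext2 (by omega) (by omega)⟩
      · left; exact ⟨ext2 (by omega) (by omega), ext2 (by omega) (by omega)⟩

theorem grid_planar (G : SimpleGraph V) (hpos : Function.Injective pos)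
    (h : ∀ u v, G.Adj u v → ∑ i, (pos u i - pos v i).natAbs = 1) :
    ∃ D : Drawing G, D.crossings = ∅ := by
  have hadj : ∀ e ∈ G.edgeSet, G.Adj (fs e) (sn e) := by
    intro e he
    rw [← mk_out e] at he
    exact he
  refine ⟨⟨P pos, P_inj hpos, ar pos, ?_, ?_, ?_, ?_⟩, ?_⟩
  · intro e _
    have : Continuous (ar pos e) := by unfold ar; fun_prop
    exact this.continuousOn
  · intro e he t _ t' _ htt
    have hne : P pos (sn e) - P pos (fs e) ≠ 0 := by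
      intro h0
      exact (hadj e he).ne (P_inj hpos (sub_eq_zero.1 h0)).symm
    have h1 : ((t : ℂ) - t') * (P pos (sn e) - P pos (fs e)) = 0 := by
      have h2 : ar pos e t - ar pos e t' = 0 := sub_eq_zero.2 htt
      rw [← h2]
      unfold ar
      ring
    have h3 := (mul_eq_zero.1 h1).resolve_right hne
    exact_mod_cast sub_eq_zero.1 h3
  · intro u v _
    have h0 : ar pos s(u, v) 0 = P pos (fs s(u, v)) := by simp [ar]
    have h1 : ar pos s(u, v) 1 = P pos (sn s(u, v)) := by simp [ar]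
    rw [h0, h1]
    have h2 := mk_out s(u, v)
    rw [Sym2.eq_iff] at h2
    rcases h2 with ⟨h3, h4⟩ | ⟨h3, h4⟩
    · left; rw [h3, h4]; exact ⟨rfl, rfl⟩
    · right; rw [h3, h4]; exact ⟨rfl, rfl⟩
  · intro e he t ht w hw
    rcases cases_edge (h _ _ (hadj e he)) with ⟨n, hn⟩ | ⟨n, hn⟩
    · obtain ⟨-, a2, a3⟩ := hn.pt ht
      rw [hw] at a2 a3
      exact no_int a2 a3 rfl
    · obtain ⟨-, a2, a3⟩ := hn.pt ht
      rw [hw] at a2 a3
      exact no_int a2 a3 rfl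
  · rw [Set.eq_empty_iff_forall_notMem]
    rintro x ⟨e, he, f, hf, hef, -, ⟨t, ht, htx⟩, t', ht', htx'⟩
    exact hef (eq_of_point hpos (h _ _ (hadj e he)) (h _ _ (hadj f hf)) ht ht'
      (htx.trans htx'.symm))

end

end Pool.Agent.U324.TG.PLAN
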