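import Pool.Agent.U514.TG.Stm2
import Pool.Agent.U324.TG.PlanGrid

set_option autoImplicit false

/-!
Package PLAN of project TG (MP_e72dc0_lc): circuits with neighbouring gates are planar.
-/

namespace Pool.Agent.U324.TG.PLAN

open Pool.Agent.U514.TG

theorem t_PLAN : S_PLAN := by
  intro F V C pos hpos hN
  apply grid_planar (Pool.Agent.U514.MM.gateGraph C) hpos
  intro u v huv
  unfold Pool.Agent.U514.MM.gateGraph at huv
  rw [SimpleGraph.fromRel_adj] at huv
  rcases huv.2 with h | h
  · exact hN u v h
  · have h1 := hN v u h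
    rw [Fin.sum_univ_two] at h1 ⊢
    omega

end Pool.Agent.U324.TG.PLAN
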